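import Pool.Agent.U789.Zp.Main

set_option autoImplicit false

/-! A feedback register for the Zeckendorf parity of the squares is long. -/

namespace Pool.Agent.U789.Zp

open Nat Pool.Agent.U789.Zk

/-- the Zeckendorf parity along the squares -/
def sq (n : ℕ) : Bool := S (n ^ 2)

theorem agree {m t N κ : ℕ} (hm : 3 ≤ m) (ht : 3 * m + 4 ≤ 2 * t + 2) (hκ : κ ≤ fib m)
    (f : (Fin κ → Bool) → Bool)
    (hf : ∀ i, i + κ < N → sq (i + κ) = f (fun j : Fin κ => sq (i + (j : ℕ)))) :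
    ∀ n, Lc (2 * t + 4) + n < N → sq (Lc (2 * t + 2) + n) = sq (Lc (2 * t + 4) + n) := by
  intro n
  induction n using Nat.strong_induction_on with
  | _ n ih =>
    intro hN
    have hle : Lc (2 * t + 2) ≤ Lc (2 * t + 4) := Lc_mono (by omega) (by omega)
    rcases Nat.lt_or_ge n κ with h1 | h1
    · have h2 : n < fib m := by omega
      unfold sq
      rw [S_near hm ht h2, show 2 * t + 4 = 2 * (t + 1) + 2 by ring,
        S_near hm (by omega) h2]
    · have e1 := hf (Lc (2 * t + 2) + (n - κ)) (by omega)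
      have e2 := hf (Lc (2 * t + 4) + (n - κ)) (by omega)
      rw [show Lc (2 * t + 2) + (n - κ) + κ = Lc (2 * t + 2) + n by omega] at e1
      rw [show Lc (2 * t + 4) + (n - κ) + κ = Lc (2 * t + 4) + n by omega] at e2
      rw [e1, e2]
      congr 1
      funext u
      have hu := u.2
      rw [Nat.add_assoc, Nat.add_assoc]
      exact ih (n - κ + u) (by omega) (by omega)

theorem key {m N κ : ℕ} (hm : 4 ≤ m) (hN : 3 * Lc (3 * m + 8) ≤ N) (hκ : κ ≤ fib m)
    (f : (Fin κ → Bool) → Bool)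
    (hf : ∀ i, i + κ < N → sq (i + κ) = f (fun j : Fin κ => sq (i + (j : ℕ)))) : False := by
  obtain ⟨t, ht1, ht2⟩ : ∃ t, 3 * m + 4 ≤ 2 * t + 2 ∧ 2 * t + 2 ≤ 3 * m + 5 :=
    ⟨(3 * m + 3) / 2, by omega, by omega⟩
  have hA := agree (by omega) ht1 hκ f hf
  have hB := agree (t := t + 1) (by omega) (by omega) hκ f hf
  rw [show 2 * (t + 1) + 4 = 2 * t + 6 by ring, show 2 * (t + 1) + 2 = 2 * t + 4 by ring] at hB
  have r4 : Lc (2 * t + 4) = Lc (2 * t + 2) + Lc (2 * t + 3) := rfl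
  have r5 : Lc (2 * t + 5) = Lc (2 * t + 3) + Lc (2 * t + 4) := rfl
  have r6 : Lc (2 * t + 6) = Lc (2 * t + 4) + Lc (2 * t + 5) := rfl
  have p3 : ∀ x, Lc (2 * t + 4) ≤ x → x + Lc (2 * t + 3) < N → sq (x + Lc (2 * t + 3)) = sq x := by
    intro x hx hxN
    have h := hA (x - Lc (2 * t + 2)) (by omega)
    rw [show Lc (2 * t + 2) + (x - Lc (2 * t + 2)) = x by omega,
      show Lc (2 * t + 4) + (x - Lc (2 * t + 2)) = x + Lc (2 * t + 3) by omega] at h
    exact h.symm
  have p5 : ∀ x, Lc (2 * t + 4) ≤ x → x + Lc (2 * t + 5) < N → sq (x + Lc (2 * t + 5)) = sq x := by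
    intro x hx hxN
    have h := hB (x - Lc (2 * t + 4)) (by omega)
    rw [show Lc (2 * t + 4) + (x - Lc (2 * t + 4)) = x by omega,
      show Lc (2 * t + 6) + (x - Lc (2 * t + 4)) = x + Lc (2 * t + 5) by omega] at h
    exact h.symm
  have p4 : ∀ x, Lc (2 * t + 4) ≤ x → x + Lc (2 * t + 5) < N → sq (x + Lc (2 * t + 4)) = sq x := by
    intro x hx hxN
    have h1 := p3 (x + Lc (2 * t + 4)) (by omega) (by omega)
    rw [← h1, show x + Lc (2 * t + 4) + Lc (2 * t + 3) = x + Lc (2 * t + 5) by omega]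
    exact p5 x hx hxN
  have claim : ∀ r, r + 1 ≤ 2 * t + 4 →
      (∀ x, Lc (2 * t + 4) ≤ x → x + 2 * Lc (2 * t + 5) < N + Lc (2 * t + 4 - r) →
        sq (x + Lc (2 * t + 3 - r)) = sq x) ∧
      (∀ x, Lc (2 * t + 4) ≤ x → x + 2 * Lc (2 * t + 5) < N + Lc (2 * t + 5 - r) →
        sq (x + Lc (2 * t + 4 - r)) = sq x) := by
    intro r
    induction r with
    | zero =>
      intro _
      refine ⟨fun x hx hxN => p3 x hx ?_, fun x hx hxN => p4 x hx ?_⟩
      · rw [Nat.sub_zero] at hxN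
        omega
      · rw [Nat.sub_zero] at hxN
        omega
    | succ r ih =>
      intro hr
      obtain ⟨i1, i2⟩ := ih (by omega)
      obtain ⟨q, hq⟩ : ∃ q, 2 * t + 3 - r = q + 1 := ⟨2 * t + 2 - r, by omega⟩
      have e1 : 2 * t + 3 - (r + 1) = q := by omega
      have e2 : 2 * t + 4 - (r + 1) = q + 1 := by omega
      have e3 : 2 * t + 5 - (r + 1) = q + 2 := by omega
      have e4 : 2 * t + 4 - r = q + 2 := by omega
      have e5 : 2 * t + 5 - r = q + 3 := by omega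
      rw [hq, e4] at i1
      rw [e4, e5] at i2
      rw [e1, e2, e3]
      have s2 : Lc (q + 2) = Lc q + Lc (q + 1) := rfl
      have s3 : Lc (q + 3) = Lc (q + 1) + Lc (q + 2) := rfl
      refine ⟨?_, i1⟩
      intro x hx hxN
      have h1 := i1 (x + Lc q) (by omega) (by omega)
      have h2 := i2 x hx (by omega)
      rw [show x + Lc q + Lc (q + 1) = x + Lc (q + 2) by omega] at h1
      rw [← h1, h2]
  obtain ⟨c1, -⟩ := claim (2 * t + 2) (by omega)
  rw [show 2 * t + 4 - (2 * t + 2) = 2 by omega, show 2 * t + 3 - (2 * t + 2) = 1 by omega] at c1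
  have l1 : Lc 1 = 1 := rfl
  have l2 : Lc 2 = 3 := rfl
  rw [l1, l2] at c1
  have b4 : Lc (2 * t + 4) ≤ Lc (2 * t + 5) := Lc_le_succ (by omega)
  have b5 : Lc (2 * t + 5) ≤ Lc (3 * m + 8) := Lc_mono (by omega) (by omega)
  have h1 := c1 (Lc (2 * t + 4)) le_rfl (by omega)
  have h2 := c1 (Lc (2 * t + 4) + 1) (by omega) (by omega)
  have z0 := S_near_zero (t := t + 1) (by omega)
  have z2 := S_near_two (t := t + 1) (by omega)
  rw [show 2 * (t + 1) + 2 = 2 * t + 4 by ring] at z0 z2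
  rw [Nat.add_assoc] at h2
  unfold sq at h1 h2
  rw [h1] at h2
  norm_num at h2
  rw [h2, z0] at z2
  exact absurd z2 (by decide)

theorem exists_m {N : ℕ} (hN : 3 * Lc 20 ≤ N) : ∃ m, 4 ≤ m ∧ 3 * Lc (3 * m + 8) ≤ N ∧
    N < 3 * Lc (3 * m + 11) := by
  have hgrow : ∀ q, q ≤ Lc (3 * q + 23) := by
    intro q
    induction q with
    | zero => omega
    | succ q ih =>
      have h1 : Lc (3 * q + 23) + 1 ≤ Lc (3 * (q + 1) + 23) := by
        have e : Lc (3 * (q + 1) + 23) = Lc (3 * q + 24) + Lc (3 * q + 25) := rfl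
        have h2 : Lc (3 * q + 23) ≤ Lc (3 * q + 24) := Lc_mono (by omega) (by omega)
        have h3 := Lc_pos (3 * q + 25)
        omega
      omega
  have hex : ∃ q, N < 3 * Lc (3 * q + 23) := ⟨N + 1, by have := hgrow (N + 1); omega⟩
  classical
  have hspec := Nat.find_spec hex
  have hmin := fun {k} (hk : k < Nat.find hex) => Nat.find_min hex hk
  generalize Nat.find hex = q at hspec hmin
  refine ⟨q + 4, by omega, ?_, ?_⟩
  · rcases Nat.eq_zero_or_pos q with h0 | h0
    · subst h0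
      exact hN
    · have h := hmin (k := q - 1) (by omega)
      rw [show 3 * (q - 1) + 23 = 3 * (q + 4) + 8 by omega] at h
      omega
  · rw [show 3 * (q + 4) + 11 = 3 * q + 23 by ring]
    exact hspec

theorem cube_bound {m N : ℕ} (hm : 1 ≤ m) (h : N < 3 * Lc (3 * m + 11)) :
    N ≤ (25 * fib m) ^ 3 := by
  have e : Lc (3 * m + 11) = fib (3 * m + 12) + fib (3 * m + 10) := Lc_succ_eq (3 * m + 10)
  have h0 : fib (3 * m + 10) ≤ fib (3 * m + 12) := fib_mono (by omega)
  have h1 : fib (m + (2 * m + 12)) ≤ fib m * fib (2 * m + 12 + 2) := fib_le_mul hm _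
  have h2 : fib (m + (m + 14)) ≤ fib m * fib (m + 14 + 2) := fib_le_mul hm _
  have h3 : fib (m + 16) ≤ fib m * fib (16 + 2) := fib_le_mul hm _
  have h4 : fib 18 = 2584 := by decide
  rw [show 16 + 2 = 18 by rfl, h4] at h3
  rw [show m + (2 * m + 12) = 3 * m + 12 by ring,
    show 2 * m + 12 + 2 = m + (m + 14) by ring] at h1
  rw [show m + 14 + 2 = m + 16 by ring] at h2
  have h5 : fib (3 * m + 12) ≤ fib m * (fib m * (fib m * 2584)) :=
    h1.trans (Nat.mul_le_mul_left _ (h2.trans (Nat.mul_le_mul_left _ h3)))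
  have h6 : fib m * (fib m * (fib m * 2584)) = 2584 * fib m ^ 3 := by ring
  have h7 : (25 * fib m) ^ 3 = 15625 * fib m ^ 3 := by ring
  rw [h6] at h5
  rw [h7]
  omega

/-- every feedback register that generates the first `N` terms is long -/
theorem lower {N κ : ℕ} (hN : 3 * Lc 20 ≤ N) (f : (Fin κ → Bool) → Bool)
    (hf : ∀ i, i + κ < N → sq (i + κ) = f (fun j : Fin κ => sq (i + (j : ℕ)))) :
    N ≤ (25 * κ) ^ 3 := by
  obtain ⟨m, h1, h2, h3⟩ := exists_m hN
  have h4 : fib m ≤ κ := by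
    by_contra hcon
    exact key h1 h2 (by omega) f hf
  exact (cube_bound (by omega) h3).trans (Nat.pow_le_pow_left (by omega) 3)

end Pool.Agent.U789.Zp
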