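import Pool.Agent.U789.Zk.Basic

set_option autoImplicit false

/-! Lucas numbers, the shift map, and the Zeckendorf parity of squares near a Lucas number. -/

namespace Pool.Agent.U789.Zp

open Nat Pool.Agent.U789.Zk

/-- Lucas numbers -/
def Lc : ℕ → ℕ
  | 0 => 2
  | 1 => 1
  | n + 2 => Lc n + Lc (n + 1)

theorem Lc_add_two (n : ℕ) : Lc (n + 2) = Lc n + Lc (n + 1) := rfl

theorem Lc_succ_eq (n : ℕ) : Lc (n + 1) = fib (n + 2) + fib n := by
  induction n using Nat.twoStepInduction with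
  | zero => decide
  | one => decide
  | more n h1 h2 =>
    rw [Lc_add_two (n + 1), h1, h2]
    have e1 : fib (n + 2 + 2) = fib (n + 2) + fib (n + 2 + 1) := fib_add_two
    have e2 : fib (n + 2) = fib n + fib (n + 1) := fib_add_two
    have e3 : n + 1 + 2 = n + 2 + 1 := by ring
    rw [e3, e1]
    omega

theorem Lc_pos (n : ℕ) : 0 < Lc n := by
  cases n with
  | zero => decide
  | succ n =>
    rw [Lc_succ_eq]
    have : 0 < fib (n + 2) := fib_pos.2 (by omega)
    omega

theorem Lc_le_succ {n : ℕ} (hn : 1 ≤ n) : Lc n ≤ Lc (n + 1) := by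
  obtain ⟨m, rfl⟩ := Nat.exists_eq_add_of_le' hn
  rw [Lc_add_two]
  omega

theorem Lc_mono {a b : ℕ} (ha : 1 ≤ a) (hab : a ≤ b) : Lc a ≤ Lc b := by
  induction b, hab using Nat.le_induction with
  | base => exact le_rfl
  | succ b hb ih => exact ih.trans (Lc_le_succ (by omega))

/-- the norm form at consecutive Lucas numbers -/
theorem norm_Lc (n : ℕ) : ((Lc (n + 1) : ℤ)) ^ 2 - Lc (n + 1) * Lc n - (Lc n : ℤ) ^ 2
    = 5 * (-1) ^ (n + 1) := by
  induction n with
  | zero => decide
  | succ n ih =>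
    rw [Lc_add_two]
    push_cast
    rw [pow_succ (-1 : ℤ) (n + 1), ← mul_assoc, ← ih]
    ring

theorem cassini (n : ℕ) : ((fib (n + 1) : ℤ)) ^ 2 - fib (n + 1) * fib n - (fib n : ℤ) ^ 2
    = (-1) ^ n := by
  induction n with
  | zero => decide
  | succ n ih =>
    rw [fib_add_two (n := n)]
    push_cast
    rw [pow_succ (-1 : ℤ) n, ← ih]
    ring

theorem Lc_sq (t : ℕ) : Lc (2 * t + 2) ^ 2 = Lc (4 * t + 4) + 2 := by
  have h := cassini (2 * t + 1)
  have e1 : Lc (2 * t + 2) = fib (2 * t + 3) + fib (2 * t + 1) := Lc_succ_eq (2 * t + 1)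
  have e2 : Lc (4 * t + 4) = fib (4 * t + 5) + fib (4 * t + 3) := Lc_succ_eq (4 * t + 3)
  have e3 : fib (4 * t + 3) = fib (2 * t + 2) ^ 2 + fib (2 * t + 1) ^ 2 := by
    have := fib_two_mul_add_one (2 * t + 1)
    rw [← this]
    congr 1
    ring
  have e4 : fib (4 * t + 5) = fib (2 * t + 3) ^ 2 + fib (2 * t + 2) ^ 2 := by
    have := fib_two_mul_add_one (2 * t + 2)
    rw [← this]
    congr 1
    ring
  have e5 : fib (2 * t + 3) = fib (2 * t + 1) + fib (2 * t + 2) := fib_add_two
  have e6 : ((-1 : ℤ)) ^ (2 * t + 1) = -1 := by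
    rw [pow_succ, pow_mul]
    norm_num
  rw [e6] at h
  have h' : ((fib (2 * t + 2) : ℤ)) ^ 2 - fib (2 * t + 2) * fib (2 * t + 1)
      - (fib (2 * t + 1) : ℤ) ^ 2 = -1 := h
  rw [e1, e2, e3, e4, e5]
  zify
  generalize (fib (2 * t + 2) : ℤ) = a at h' ⊢
  generalize (fib (2 * t + 1) : ℤ) = b at h' ⊢
  linear_combination (-2) * h'

theorem E_one_add (q : ℕ) : 2 + q ≤ E (q + 1) := by
  induction q with
  | zero => simp [E_one]
  | succ q ih =>
    have := E_lt_succ (q + 1)
    omega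

/-- the defect of the shift -/
theorem defect {p : ℝ} (hp0 : 0 < p) (hp1 : p < 1) (hp : p ^ 2 + p = 1) (n : ℕ) :
    -(1 - p) < (E n : ℝ) - (1 + p) * n ∧ (E n : ℝ) - (1 + p) * n < p ∧
    (ty n = false → (E n : ℝ) - (1 + p) * n < 2 * p - 1) := by
  have hhalf : 1 / 2 < p := by nlinarith
  induction n using Nat.strong_induction_on with
  | _ n ih =>
    obtain ⟨m, h | ⟨h1, h2⟩⟩ := exists_E n
    · rcases Nat.eq_zero_or_pos m with h0 | h0
      · subst h0
        rw [E_zero] at h
        subst h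
        rw [E_zero]
        refine ⟨?_, ?_, fun _ => ?_⟩ <;> push_cast <;> linarith
      have hlt : m < n := by
        have h3 : m ≤ E m := le_E m
        rcases h3.lt_or_eq with h4 | h4
        · omega
        · exfalso
          have h6 := E_one_add (m - 1)
          rw [show m - 1 + 1 = m by omega] at h6
          omega
      obtain ⟨a1, a2, a3⟩ := ih m hlt
      have e : (E n : ℝ) - (1 + p) * n = -p * ((E m : ℝ) - (1 + p) * m) := by
        rw [h, E_E]
        push_cast
        linear_combination (-(m : ℝ)) * hp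
      rw [e]
      generalize (E m : ℝ) - (1 + p) * m = d at a1 a2
      have b1 : -(1 - p) < -p * d := by nlinarith
      have b2 : -p * d < 2 * p - 1 := by nlinarith
      exact ⟨b1, by linarith, fun _ => b2⟩
    · have hlt : m < n := by
        have := le_E m
        omega
      obtain ⟨a1, a2, a3⟩ := ih m hlt
      have a4 := a3 h1
      have e : (E n : ℝ) - (1 + p) * n = -p * ((E m : ℝ) - (1 + p) * m) + (1 - p) := by
        rw [h2, E_succ_false (ty_E m), E_E]
        push_cast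
        linear_combination (-(m : ℝ)) * hp
      have hty : ty n = true := by rw [h2]; exact ty_E1 h1
      rw [e, hty]
      generalize (E m : ℝ) - (1 + p) * m = d at a1 a2 a4
      have b1 : -(1 - p) < -p * d + (1 - p) := by nlinarith
      have b2 : -p * d + (1 - p) < p := by nlinarith
      exact ⟨b1, b2, fun h => absurd h (by decide)⟩

/-- multiples of Lucas numbers are shifted -/
theorem E_mul_Lc {b i : ℕ} (h : 14 * b ≤ Lc (i + 1)) : E (b * Lc i) = b * Lc (i + 1) := by
  obtain ⟨p, hp0, hp1, hp⟩ : ∃ p : ℝ, 0 < p ∧ p < 1 ∧ p ^ 2 + p = 1 := by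
    refine ⟨Real.goldenRatio - 1, ?_, ?_, ?_⟩
    · have := Real.one_lt_goldenRatio
      linarith
    · have := Real.goldenRatio_lt_two
      linarith
    · have := Real.goldenRatio_sq
      nlinarith
  have hp2 : p < 0.62 := by nlinarith
  have hp3 : 0.6 < p := by nlinarith
  obtain ⟨a1, a2, -⟩ := defect hp0 hp1 hp (b * Lc i)
  have hn := norm_Lc i
  have hL1 : (0 : ℝ) < Lc (i + 1) := by exact_mod_cast Lc_pos (i + 1)
  have hL0 : (0 : ℝ) < Lc i := by exact_mod_cast Lc_pos i
  have hn' : ((Lc (i + 1) : ℝ) - (1 + p) * Lc i) * ((Lc (i + 1) : ℝ) + p * Lc i)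
      = 5 * (-1) ^ (i + 1) := by
    have : ((Lc (i + 1) : ℝ)) ^ 2 - Lc (i + 1) * Lc i - (Lc i : ℝ) ^ 2
      = 5 * (-1) ^ (i + 1) := by exact_mod_cast hn
    linear_combination this - (Lc i : ℝ) ^ 2 * hp
  have habs : |(Lc (i + 1) : ℝ) - (1 + p) * Lc i| * Lc (i + 1) ≤ 5 := by
    have h1 : |(Lc (i + 1) : ℝ) - (1 + p) * Lc i| * ((Lc (i + 1) : ℝ) + p * Lc i) = 5 := by
      have h2 : (0 : ℝ) < (Lc (i + 1) : ℝ) + p * Lc i := by positivity
      have h3 : |((Lc (i + 1) : ℝ) - (1 + p) * Lc i) * ((Lc (i + 1) : ℝ) + p * Lc i)| = 5 := by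
        rw [hn', abs_mul, abs_pow, abs_neg, abs_one, one_pow]
        norm_num
      rw [abs_mul, abs_of_pos h2] at h3
      exact h3
    have h4 : 0 ≤ |(Lc (i + 1) : ℝ) - (1 + p) * Lc i| := abs_nonneg _
    have h5 : 0 ≤ |(Lc (i + 1) : ℝ) - (1 + p) * Lc i| * (p * Lc i) := by positivity
    nlinarith
  have hb : (14 : ℝ) * b ≤ Lc (i + 1) := by exact_mod_cast h
  have hd : |(b : ℝ) * Lc (i + 1) - (1 + p) * (b * Lc i)| ≤ 5 / 14 := by
    have e : (b : ℝ) * Lc (i + 1) - (1 + p) * (b * Lc i)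
      = b * ((Lc (i + 1) : ℝ) - (1 + p) * Lc i) := by ring
    rw [e, abs_mul, abs_of_nonneg (by positivity : (0 : ℝ) ≤ b)]
    have h4 : 0 ≤ |(Lc (i + 1) : ℝ) - (1 + p) * Lc i| := abs_nonneg _
    nlinarith
  obtain ⟨c1, c2⟩ := abs_le.1 hd
  push_cast at a1 a2
  have k1 : (E (b * Lc i) : ℝ) < ((b * Lc (i + 1) + 1 : ℕ) : ℝ) := by
    push_cast
    linarith
  have k2 : ((b * Lc (i + 1) : ℕ) : ℝ) < ((E (b * Lc i) + 1 : ℕ) : ℝ) := by
    push_cast
    linarith
  have k1' : E (b * Lc i) < b * Lc (i + 1) + 1 := by exact_mod_cast k1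
  have k2' : b * Lc (i + 1) < E (b * Lc i) + 1 := by exact_mod_cast k2
  omega

theorem iter_mul_Lc {b i : ℕ} (h : 14 * b ≤ Lc (i + 1)) (j : ℕ) :
    E^[j] (b * Lc i) = b * Lc (i + j) := by
  induction j with
  | zero => rfl
  | succ j ih =>
    rw [Function.iterate_succ_apply', ih, E_mul_Lc]
    · rfl
    · exact h.trans (Lc_mono (by omega) (by omega))

theorem S_iter (j y : ℕ) : S (E^[j] y) = S y := by
  induction j with
  | zero => rfl
  | succ j ih => rw [Function.iterate_succ_apply', S_E, ih]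

theorem iter_succ (j : ℕ) : ∀ n, E^[j] (n + 1) = E^[j] n +
    (if ty n then fib (j + 1) else fib (j + 2)) := by
  induction j with
  | zero => intro n; split <;> simp
  | succ j ih =>
    intro n
    rw [Function.iterate_succ_apply, Function.iterate_succ_apply]
    have e : fib (j + 1 + 2) = fib (j + 1) + fib (j + 1 + 1) := fib_add_two
    cases ht : ty n with
    | true =>
      rw [E_succ_true ht, ih, ty_E]
      rfl
    | false =>
      rw [E_succ_false ht, show E n + 2 = (E n + 1) + 1 by ring, ih, ih, ty_E, ty_E1 ht]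
      simp only [Bool.false_eq_true, if_false, if_true]
      have e3 : fib (j + 1 + 1) = fib (j + 2) := rfl
      omega

theorem iter_zero (j : ℕ) : E^[j] 0 = 0 := by
  induction j with
  | zero => rfl
  | succ j ih => rw [Function.iterate_succ_apply', ih, E_zero]

theorem iter_fib {g : ℕ} (hg : 2 ≤ g) (j : ℕ) : E^[j] (fib g) = fib (g + j) := by
  induction j with
  | zero => rfl
  | succ j ih =>
    rw [Function.iterate_succ_apply', ih, E_fib (by omega)]
    rfl

theorem iter_lt {g r a j : ℕ} (hg : 2 ≤ g) (hr : r < fib (g - 1)) (ha : a < fib (j + 1)) :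
    E^[j] r + a < fib (g - 1 + j) := by
  rcases Nat.eq_zero_or_pos r with h0 | h0
  · subst h0
    rw [iter_zero, Nat.zero_add]
    exact ha.trans_le (fib_mono (by omega))
  · have hg2 : 2 ≤ g - 1 := by
      by_contra hcon
      have : g - 1 = 1 := by omega
      rw [this, fib_one] at hr
      omega
    have h1 : E^[j] (r + 1) ≤ E^[j] (fib (g - 1)) := (E_strictMono.monotone.iterate j) hr
    rw [iter_fib hg2, iter_succ] at h1
    have h2 : fib (j + 1) ≤ fib (j + 2) := fib_mono (by omega)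
    split at h1 <;> omega

theorem iter_fib_add {g r : ℕ} (hg : 2 ≤ g) (hr : r < fib (g - 1)) (j : ℕ) :
    E^[j] (fib g + r) = fib (g + j) + E^[j] r := by
  induction j with
  | zero => rfl
  | succ j ih =>
    rw [Function.iterate_succ_apply', ih, Function.iterate_succ_apply', E_fib_add (by omega)]
    · rfl
    · have := iter_lt (a := 0) (j := j) hg hr (fib_pos.2 (by omega))
      rw [show g + j - 1 = g - 1 + j by omega]
      omega

/-- addition without carry -/
theorem S_add {j a : ℕ} (ha : a < fib (j + 1)) (y : ℕ) :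
    S (E^[j] y + a) = xor (S y) (S a) := by
  induction y using Nat.strong_induction_on with
  | _ y ih =>
    rcases Nat.eq_zero_or_pos y with h0 | h0
    · subst h0
      rw [iter_zero, Nat.zero_add, S_zero, Bool.false_xor]
    obtain ⟨g, r, hg, hr, rfl⟩ := exists_decomp h0
    have hpos : 0 < fib g := fib_pos.2 (by omega)
    rw [iter_fib_add hg hr, Nat.add_assoc, S_fib_add (by omega), ih r (by omega),
      S_fib_add hg hr]
    · cases S r <;> cases S a <;> rfl
    · rw [show g + j - 1 = g - 1 + j by omega]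
      exact iter_lt hg hr ha

theorem fib_mul_le (a b : ℕ) : fib a * fib b ≤ fib (a + b) := by
  cases a with
  | zero => simp
  | succ a =>
    rw [show a + 1 + b = a + b + 1 by ring, fib_add]
    have h : fib (a + 1) * fib b ≤ fib (a + 1) * fib (b + 1) :=
      Nat.mul_le_mul_left _ (fib_mono (by omega))
    omega

theorem fib_le_mul {m : ℕ} (hm : 1 ≤ m) (n : ℕ) : fib (m + n) ≤ fib m * fib (n + 2) := by
  obtain ⟨a, rfl⟩ := Nat.exists_eq_add_of_le' hm
  rw [show a + 1 + n = a + n + 1 by ring, fib_add]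
  have h : fib a * fib n ≤ fib (a + 1) * fib n := Nat.mul_le_mul_right _ (fib_mono (by omega))
  have e : fib (n + 2) = fib n + fib (n + 1) := fib_add_two
  rw [e, Nat.mul_add]
  omega

theorem Lc_ge {m : ℕ} (hm : 1 ≤ m) : 29 * fib m ≤ Lc (m + 6) := by
  obtain ⟨a, rfl⟩ := Nat.exists_eq_add_of_le' hm
  have e : Lc (a + 1 + 6) = fib (a + 8) + fib (a + 6) := Lc_succ_eq (a + 6)
  rw [e]
  have e2 : fib (a + 2) = fib a + fib (a + 1) := fib_add_two
  have e3 : fib (a + 3) = fib (a + 1) + fib (a + 2) := fib_add_two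
  have e4 : fib (a + 4) = fib (a + 2) + fib (a + 3) := fib_add_two
  have e5 : fib (a + 5) = fib (a + 3) + fib (a + 4) := fib_add_two
  have e6 : fib (a + 6) = fib (a + 4) + fib (a + 5) := fib_add_two
  have e7 : fib (a + 7) = fib (a + 5) + fib (a + 6) := fib_add_two
  have e8 : fib (a + 8) = fib (a + 6) + fib (a + 7) := fib_add_two
  omega

/-- the Zeckendorf parity of the squares near a Lucas number -/
theorem S_near {m t n : ℕ} (hm : 3 ≤ m) (ht : 3 * m + 4 ≤ 2 * t + 2) (hn : n < fib m) :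
    S ((Lc (2 * t + 2) + n) ^ 2) = xor (S (2 * n * Lc (m + 5))) (S (n ^ 2 + 2)) := by
  have hF2 : 2 ≤ fib m := by
    have : fib 3 ≤ fib m := fib_mono hm
    have e : fib 3 = 2 := by decide
    omega
  have hsq : n ^ 2 + 2 < fib (2 * m) := by
    have h1 : fib m * fib m ≤ fib (m + m) := fib_mul_le m m
    have h2 : m + m = 2 * m := by ring
    rw [h2] at h1
    obtain ⟨F, hF⟩ : ∃ F, fib m = F := ⟨_, rfl⟩
    rw [hF] at h1 hn hF2
    nlinarith
  obtain ⟨j, hj⟩ : ∃ j, 2 * t + 2 = m + 5 + j := ⟨2 * t + 2 - (m + 5), by omega⟩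
  have h14 : 14 * (2 * n) ≤ Lc (m + 5 + 1) := by
    have := Lc_ge (m := m) (by omega)
    have e : m + 5 + 1 = m + 6 := rfl
    rw [e]
    omega
  have hE := iter_mul_Lc h14 j
  rw [← hj] at hE
  have hlow : n ^ 2 + 2 < fib (j + 1) := hsq.trans_le (fib_mono (by omega))
  have hR := S_add hlow (2 * n * Lc (m + 5))
  rw [hE] at hR
  have hbound : 2 * n * Lc (2 * t + 2) + (n ^ 2 + 2) < fib (4 * t + 2) := by
    have e1 : Lc (2 * t + 2) = fib (2 * t + 3) + fib (2 * t + 1) := Lc_succ_eq (2 * t + 1)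
    have e2 : fib (2 * t + 1) ≤ fib (2 * t + 3) := fib_mono (by omega)
    have h1 : 2 * n * Lc (2 * t + 2) ≤ 2 * fib m * (2 * fib (2 * t + 3)) :=
      Nat.mul_le_mul (by omega) (by omega)
    have h2 : fib m * fib (2 * t + 3) ≤ fib (m + (2 * t + 3)) := fib_mul_le _ _
    have h3 : fib 5 * fib (m + (2 * t + 3)) ≤ fib (5 + (m + (2 * t + 3))) := fib_mul_le _ _
    have h4 : fib 5 = 5 := by decide
    rw [h4] at h3
    have h5 : fib (5 + (m + (2 * t + 3))) ≤ fib (4 * t + 2) := fib_mono (by omega)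
    have h6 : fib (2 * m) ≤ fib (m + (2 * t + 3)) := fib_mono (by omega)
    have h7 : 2 * fib m * (2 * fib (2 * t + 3)) = 4 * (fib m * fib (2 * t + 3)) := by ring
    rw [h7] at h1
    omega
  have hexp : (Lc (2 * t + 2) + n) ^ 2 = fib (4 * t + 5) + (fib (4 * t + 3) +
      (2 * n * Lc (2 * t + 2) + (n ^ 2 + 2))) := by
    have h1 := Lc_sq t
    have h2 : Lc (4 * t + 4) = fib (4 * t + 5) + fib (4 * t + 3) := Lc_succ_eq (4 * t + 3)
    rw [h2] at h1
    have h3 : (Lc (2 * t + 2) + n) ^ 2 = Lc (2 * t + 2) ^ 2 + 2 * n * Lc (2 * t + 2) + n ^ 2 := by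
      ring
    rw [h3, h1]
    ring
  have e4 : fib (4 * t + 4) = fib (4 * t + 2) + fib (4 * t + 3) := fib_add_two
  rw [hexp, S_fib_add (by omega), S_fib_add (by omega), hR, Bool.not_not]
  · exact hbound
  · rw [show 4 * t + 5 - 1 = 4 * t + 4 by omega]
    omega

theorem S_two : S 2 = true := by
  have := S_fib_add (g := 3) (r := 0) (by omega) (by decide)
  have e : fib 3 + 0 = 2 := by decide
  rw [e, S_zero] at this
  exact this

theorem S_six : S 6 = false := by
  have h := S_fib_add (g := 5) (r := 1) (by omega) (by decide)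
  have e : fib 5 + 1 = 6 := by decide
  rw [e, S_one] at h
  exact h

theorem S_188 : S 188 = false := by
  have h1 := S_fib_add (g := 6) (r := 2) (by omega) (by decide)
  have e1 : fib 6 + 2 = 10 := by decide
  rw [e1, S_two] at h1
  have h2 := S_fib_add (g := 9) (r := 10) (by omega) (by decide)
  have e2 : fib 9 + 10 = 44 := by decide
  rw [e2, h1] at h2
  have h3 := S_fib_add (g := 12) (r := 44) (by omega) (by decide)
  have e3 : fib 12 + 44 = 188 := by decide
  rw [e3, h2] at h3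
  simpa using h3

theorem S_near_zero {t : ℕ} (ht : 16 ≤ 2 * t + 2) : S (Lc (2 * t + 2) ^ 2) = true := by
  have h := S_near (m := 4) (t := t) (n := 0) (by omega) (by omega) (by decide)
  rw [Nat.add_zero] at h
  rw [h, Nat.mul_zero, Nat.zero_mul, S_zero]
  have e : 0 ^ 2 + 2 = 2 := by norm_num
  rw [e, S_two]
  rfl

theorem S_near_two {t : ℕ} (ht : 16 ≤ 2 * t + 2) :
    S ((Lc (2 * t + 2) + 2) ^ 2) = false := by
  have h := S_near (m := 4) (t := t) (n := 2) (by omega) (by omega) (by decide)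
  have h1 : E^[1] (4 * Lc 8) = 4 * Lc (8 + 1) := iter_mul_Lc (by decide) 1
  have h2 : S (2 * 2 * Lc (4 + 5)) = false := by
    have e : 2 * 2 * Lc (4 + 5) = E^[1] (4 * Lc 8) := by rw [h1]
    rw [e, S_iter]
    have e2 : 4 * Lc 8 = 188 := by decide
    rw [e2, S_188]
  rw [h, h2]
  have e : 2 ^ 2 + 2 = 6 := by norm_num
  rw [e, S_six]
  rfl

end Pool.Agent.U789.Zp
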